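import Pool.Agent.helper95.RF.SpecC3

set_option autoImplicit false

/-! Row rg:GPL: lower bound for one `k`. -/

namespace Pool.Agent.RF

open Finset NumberField Pool.Agent.helper3.FT

theorem GPL_e_add (a b : ℝ) : e (a + b) = e a * e b := by
  unfold e
  rw [← Complex.exp_add]
  congr 1
  push_cast
  ring

theorem GPL_e_norm (a : ℝ) : ‖e a‖ = 1 := by
  unfold e
  have h : 2 * (Real.pi : ℂ) * Complex.I * a = ((2 * Real.pi * a : ℝ) : ℂ) * Complex.I := by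
    push_cast
    ring
  rw [h]
  exact Complex.norm_exp_ofReal_mul_I _

theorem GPL_tw_nonneg (L : ℕ) (m : ℤ) : 0 ≤ T6.tw L m := le_max_left _ _

theorem GPL_tw_le {L : ℕ} (hL : 1 ≤ L) (m : ℤ) : T6.tw L m ≤ 3 := by
  have hL' : (1 : ℝ) ≤ L := by exact_mod_cast hL
  unfold T6.tw
  refine max_le (by norm_num) ?_
  rw [div_le_iff₀ (by linarith)]
  have := abs_nonneg (m : ℝ)
  linarith

theorem GPL_tw_ge {L : ℕ} (hL : 1 ≤ L) {m : ℤ} (hm : |(m : ℝ)| ≤ L) : 1 ≤ T6.tw L m := by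
  have hL' : (1 : ℝ) ≤ L := by exact_mod_cast hL
  unfold T6.tw
  refine le_trans ?_ (le_max_right _ _)
  rw [le_div_iff₀ (by linarith)]
  linarith

theorem GPL_sum1 {L : ℕ} (hL : 1 ≤ L) : (L : ℝ) ≤ ∑ m ∈ Icc (-(2 * L : ℤ)) (2 * L), T6.tw L m := by
  have h1 : ∑ m ∈ Icc (1 : ℤ) L, (1 : ℝ) ≤ ∑ m ∈ Icc (1 : ℤ) L, T6.tw L m := by
    refine sum_le_sum fun m hm => GPL_tw_ge hL ?_
    rw [mem_Icc] at hm
    rw [abs_of_nonneg (by exact_mod_cast (by omega : (0 : ℤ) ≤ m))]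
    exact_mod_cast hm.2
  have h2 : ∑ m ∈ Icc (1 : ℤ) L, T6.tw L m ≤ ∑ m ∈ Icc (-(2 * L : ℤ)) (2 * L), T6.tw L m := by
    refine sum_le_sum_of_subset_of_nonneg ?_ fun i _ _ => GPL_tw_nonneg _ _
    intro m hm
    rw [mem_Icc] at hm ⊢
    constructor <;> omega
  have h3 : ∑ m ∈ Icc (1 : ℤ) L, (1 : ℝ) = L := by
    rw [sum_const, nsmul_one, Int.card_Icc]
    simp
  linarith

/-- the sum of the weights -/
theorem GPL_sum {L L' : ℕ} (hL : 1 ≤ L) (hL' : 1 ≤ L') :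
    (L : ℝ) * L' ≤ ∑ i ∈ Icc (-(2 * L : ℤ)) (2 * L) ×ˢ Icc (-(2 * L' : ℤ)) (2 * L'), T6.tw L i.1 * T6.tw L' i.2 := by
  rw [sum_product, ← sum_mul_sum]
  have h1 := GPL_sum1 hL
  have h2 := GPL_sum1 hL'
  exact mul_le_mul h1 h2 (by positivity) (by have : (0 : ℝ) ≤ L := by positivity
                                             linarith)

theorem GPL_re (M₀ : OO) (E : ℕ) (x y : ℤ) : (M₀ + (E : OO) * ⟨x, y⟩).re = M₀.re + E * x := by
  rw [QuadraticAlgebra.re_add, QuadraticAlgebra.re_mul, QuadraticAlgebra.re_natCast, QuadraticAlgebra.im_natCast]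
  ring

theorem GPL_im (M₀ : OO) (E : ℕ) (x y : ℤ) : (M₀ + (E : OO) * ⟨x, y⟩).im = M₀.im + E * y := by
  rw [QuadraticAlgebra.im_add, QuadraticAlgebra.im_mul, QuadraticAlgebra.re_natCast, QuadraticAlgebra.im_natCast]
  ring

theorem GPL_box {E B : ℕ} {m x : ℤ} (h0 : 0 ≤ m) (h1 : m < E) (a1 : -(2 * B : ℤ) ≤ x) (a2 : x ≤ 2 * B) :
    |((m + E * x : ℤ) : ℝ)| ≤ E * (2 * B + 1) := by
  have h2 : |m + E * x| ≤ E * (2 * B + 1) := by
    have hE : (0 : ℤ) ≤ E := Int.natCast_nonneg E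
    rw [abs_le]
    constructor
    · nlinarith
    · nlinarith
  exact_mod_cast h2

theorem GPL (h1 : GEB_stmt) (h2 : T6.EMI_stmt) (h3 : T6.WWY_stmt) : GPL_stmt := by
  classical
  obtain ⟨C₀, hC₀, hW⟩ := h3
  refine ⟨36 + √C₀, by have := Real.sqrt_nonneg C₀; linarith, ?_⟩
  intro d k M₀ s₀ hd hcp hco hr0 hr1 hi0 hi1
  obtain ⟨a, hres, c₃, c₄, c₅, hcb⟩ := h1 d k M₀ s₀ hd hcp hco
  refine ⟨a, hres, ?_⟩
  intro L T z₀ V F hL hT hV hTV hVQ hF
  choose z₁ hz₁ hz₂ using hcb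
  -- `q` is positive
  have hq0 : 0 < k.norm.natAbs := by
    rcases Nat.eq_zero_or_pos k.norm.natAbs with h | h
    · exfalso
      rw [h] at hVQ
      norm_num at hVQ
      linarith
    · exact h
  have hd0 : (0 : ℝ) < d := by exact_mod_cast hd
  have hd1 : (1 : ℝ) ≤ d := by exact_mod_cast hd
  have hT0 : (0 : ℝ) < T := by exact_mod_cast hT
  have hqr : (0 : ℝ) < (k.norm.natAbs : ℝ) := by exact_mod_cast hq0
  set q3 : ℝ := (k.norm.natAbs : ℝ) ^ 3 with hq3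
  have hq30 : 0 < q3 := by positivity
  set Q : ℝ := (d : ℝ) * q3 with hQ
  have hQ0 : 0 < Q := by positivity
  -- the index set
  set s := Icc (-(2 * L : ℤ)) (2 * L) ×ˢ Icc (-(2 * L : ℤ)) (2 * L) with hs
  set X : ℤ × ℤ → ℝ := fun i => (d : ℝ) / q3 * (a.1 * i.1 ^ 2 + a.2.1 * i.1 * i.2 + a.2.2 * i.2 ^ 2) +
    c₃ * i.1 + c₄ * i.2 + c₅ - (z₀ + V / 2) / Q with hX
  set w : ℤ × ℤ → ℝ := fun i => T6.tw L i.1 * T6.tw L i.2 with hw
  have hw0 : ∀ i, 0 ≤ w i := fun i => mul_nonneg (GPL_tw_nonneg _ _) (GPL_tw_nonneg _ _)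
  have hw9 : ∀ i, w i ≤ 9 := by
    intro i
    calc T6.tw L i.1 * T6.tw L i.2 ≤ 3 * 3 :=
          mul_le_mul (GPL_tw_le hL _) (GPL_tw_le hL _) (GPL_tw_nonneg _ _) (by norm_num)
      _ = 9 := by norm_num
  have hXz : ∀ i, X i = ((z₁ i.1 i.2 : ℝ) - z₀ - V / 2) / Q := by
    intro i
    have h1 : ((z₁ i.1 i.2 : ℝ) - z₀ - V / 2) / Q = (z₁ i.1 i.2 : ℝ) / Q - (z₀ + V / 2) / Q := by ring
    rw [h1, hz₁ i.1 i.2]
  -- the tuples
  set tt : ℤ × ℤ → OO × ℤ := fun i => (M₀ + (d : OO) * ⟨i.1, i.2⟩,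
    z₁ i.1 i.2 + (d : ℤ) * (k.norm.natAbs : ℤ) ^ 3 * (-round (X i))) with htt
  have hl : 0 < V / (2 * Q) := by positivity
  have hl2 : V / (2 * Q) ≤ 1 / 2 := by
    rw [div_le_div_iff₀ (by positivity) (by norm_num)]
    linarith
  have hl5 : 5 ≤ T * (V / (2 * Q)) := by
    rw [← mul_div_assoc, le_div_iff₀ (by positivity)]
    linarith
  have harc : ∑ i ∈ s.filter (fun i => nd (X i) ≤ V / (2 * Q) / 2), w i ≤ 9 * (F.card : ℝ) := by
    refine (sum_le_card_nsmul _ _ _ fun i _ => hw9 i).trans ?_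
    rw [nsmul_eq_mul, mul_comm]
    refine mul_le_mul_of_nonneg_left ?_ (by norm_num)
    have hc : (s.filter (fun i => nd (X i) ≤ V / (2 * Q) / 2)).card ≤ F.card := by
      apply card_le_card_of_injOn tt
      · intro i hi
        rw [mem_coe, mem_filter, hs, mem_product, mem_Icc, mem_Icc] at hi
        obtain ⟨⟨⟨a1, a2⟩, a3, a4⟩, hi2⟩ := hi
        obtain ⟨t1, t2⟩ := hz₂ i.1 i.2 (-round (X i))
        rw [mem_coe]
        have b1 : |X i - round (X i)| ≤ V / (4 * Q) := by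
          have h1 : nd (X i) = |X i - round (X i)| := rfl
          rw [← h1]
          refine hi2.trans (le_of_eq ?_)
          field_simp
          norm_num
        have b2 : |(z₁ i.1 i.2 : ℝ) - Q * (round (X i) : ℝ) - z₀ - V / 2| ≤ V / 4 := by
          have h1 : (z₁ i.1 i.2 : ℝ) - Q * (round (X i) : ℝ) - z₀ - V / 2 = Q * (X i - round (X i)) := by
            have h2 := hXz i
            rw [eq_div_iff hQ0.ne'] at h2
            linarith
          rw [h1, abs_mul, abs_of_pos hQ0]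
          calc Q * |X i - round (X i)| ≤ Q * (V / (4 * Q)) := mul_le_mul_of_nonneg_left b1 hQ0.le
            _ = V / 4 := by field_simp
        rw [abs_le] at b2
        have b3 : (((tt i).2 : ℤ) : ℝ) = (z₁ i.1 i.2 : ℝ) - Q * (round (X i) : ℝ) := by
          show ((z₁ i.1 i.2 + (d : ℤ) * (k.norm.natAbs : ℤ) ^ 3 * (-round (X i)) : ℤ) : ℝ) = _
          rw [hQ, hq3]
          have h1 : (((k.norm.natAbs : ℕ) : ℤ) : ℝ) = (k.norm.natAbs : ℝ) := Int.cast_natCast _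
          rw [Int.cast_add, Int.cast_mul, Int.cast_mul, Int.cast_pow, Int.cast_neg, h1, Int.cast_natCast]
          ring
        refine hF _ _ t1 ⟨⟨i.1, i.2⟩, by rw [add_sub_cancel_left]⟩ t2 ?_ ?_ ?_ ?_
        · rw [GPL_re]
          exact GPL_box hr0 hr1 a1 a2
        · rw [GPL_im]
          exact GPL_box hi0 hi1 a3 a4
        · have : z₀ < (((tt i).2 : ℤ) : ℝ) := by
            rw [b3]
            linarith
          exact this
        · have : (((tt i).2 : ℤ) : ℝ) ≤ z₀ + V := by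
            rw [b3]
            linarith
          exact this
      · intro i _ i' _ hii
        have h1 : M₀ + (d : OO) * ⟨i.1, i.2⟩ = M₀ + (d : OO) * ⟨i'.1, i'.2⟩ := congrArg Prod.fst hii
        have h2 := congrArg QuadraticAlgebra.re h1
        have h3 := congrArg QuadraticAlgebra.im h1
        rw [GPL_re, GPL_re] at h2
        rw [GPL_im, GPL_im] at h3
        have hdz : (d : ℤ) ≠ 0 := by
          have : d ≠ 0 := by omega
          exact_mod_cast this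
        refine Prod.ext (mul_left_cancel₀ hdz ?_) (mul_left_cancel₀ hdz ?_)
        · linarith
        · linarith
    exact_mod_cast hc
  have hemi := h2 s w X T (V / (2 * Q)) hl hl2 hl5 (fun i _ => hw0 i)
  -- the exponential sums
  have hts : ∀ h : ℕ, ‖∑ i ∈ s, (w i : ℂ) * e (h * X i)‖ ≤ √C₀ * (√((L : ℝ) * L) *
      √((nearPts L L ((h * d : ℕ) * a.1 / q3) ((h * d : ℕ) * a.2.1 / q3)
          ((h * d : ℕ) * a.2.2 / q3)).card : ℝ)) := by
    intro h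
    set c : Fin 5 → ℝ := ![((h * d : ℕ) : ℝ) * a.1 / q3,
      ((h * d : ℕ) : ℝ) * a.2.1 / q3, ((h * d : ℕ) : ℝ) * a.2.2 / q3,
      h * c₃, h * c₄] with hc
    have hc0 : c 0 = ((h * d : ℕ) : ℝ) * a.1 / q3 := rfl
    have hc1 : c 1 = ((h * d : ℕ) : ℝ) * a.2.1 / q3 := rfl
    have hc2 : c 2 = ((h * d : ℕ) : ℝ) * a.2.2 / q3 := rfl
    have hc3 : c 3 = h * c₃ := rfl
    have hc4 : c 4 = h * c₄ := rfl
    have h1 : ∑ i ∈ s, (w i : ℂ) * e (h * X i) = T6.TS L L c * e (h * (c₅ - (z₀ + V / 2) / Q)) := by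
      unfold T6.TS
      rw [hs, sum_product, sum_mul]
      refine sum_congr rfl fun m _ => ?_
      rw [sum_mul]
      refine sum_congr rfl fun g _ => ?_
      have h2 : (h : ℝ) * X (m, g) = (c 0 * m ^ 2 + c 1 * m * g + c 2 * g ^ 2 + c 3 * m + c 4 * g) +
          h * (c₅ - (z₀ + V / 2) / Q) := by
        rw [hc0, hc1, hc2, hc3, hc4]
        simp only [hX]
        push_cast
        ring
      rw [h2, GPL_e_add]
      simp only [hw]
      ring
    rw [h1, norm_mul, GPL_e_norm, mul_one]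
    have h3 := hW L L c hL hL
    rw [hc0, hc1, hc2] at h3
    have hLL : (0 : ℝ) ≤ (L : ℝ) * L := by positivity
    refine abs_le_of_sq_le_sq' ?_ (by positivity) |>.2
    rw [mul_pow, mul_pow, Real.sq_sqrt (by linarith), Real.sq_sqrt hLL, Real.sq_sqrt (by positivity)]
    refine h3.trans (le_of_eq ?_)
    ring
  have hsum := GPL_sum hL hL
  have hNS : NK L T d k a = ∑ h ∈ Ico 1 T, √((nearPts L L ((h * d : ℕ) * a.1 / q3)
      ((h * d : ℕ) * a.2.1 / q3) ((h * d : ℕ) * a.2.2 / q3)).card : ℝ) := rfl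
  have h4 : ∑ h ∈ Ico 1 T, ‖∑ i ∈ s, (w i : ℂ) * e (h * X i)‖ ≤ √C₀ * (√((L : ℝ) * L) *
      NK L T d k a) := by
    rw [hNS, mul_sum, mul_sum]
    exact sum_le_sum fun h _ => hts h
  have hLs : √((L : ℝ) * L) = L := Real.sqrt_mul_self (by positivity)
  rw [hLs] at h4
  set S := NK L T d k a with hS
  have hS0 : 0 ≤ S := sum_nonneg fun _ _ => Real.sqrt_nonneg _
  have h5 : 1 / (4 * T) * ((L : ℝ) * L) ≤ 9 * (F.card : ℝ) + 7 / T * (√C₀ * ((L : ℝ) * S)) := by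
    have h3 : 1 / (4 * T) * ((L : ℝ) * L) ≤ 1 / (4 * T) * ∑ i ∈ s, w i :=
      mul_le_mul_of_nonneg_left hsum (by positivity)
    have h6 := mul_le_mul_of_nonneg_left h4 (by positivity : (0 : ℝ) ≤ 7 / T)
    linarith
  have hsq : 0 ≤ √C₀ := Real.sqrt_nonneg _
  have h6 : (0 : ℝ) ≤ (L : ℝ) ^ 2 := by positivity
  have h7 : (L : ℝ) ^ 2 / ((36 + √C₀) * T) ≤ (L : ℝ) ^ 2 / (36 * T) := by
    apply div_le_div_of_nonneg_left h6 (by positivity)
    nlinarith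
  have h8 : (L : ℝ) ^ 2 / (36 * T) = (1 / (4 * T) * ((L : ℝ) * L)) / 9 := by
    field_simp
    norm_num
  have h9 : 0 ≤ (L : ℝ) * S := mul_nonneg (by positivity) hS0
  have h10 : 7 / T * (√C₀ * ((L : ℝ) * S)) ≤ 9 * ((36 + √C₀) / T * ((L : ℝ) * S)) := by
    have e1 : 7 / T * (√C₀ * ((L : ℝ) * S)) = (7 * √C₀) * (((L : ℝ) * S) / T) := by ring
    have e2 : 9 * ((36 + √C₀) / T * ((L : ℝ) * S)) = (9 * (36 + √C₀)) * (((L : ℝ) * S) / T) := by ring
    rw [e1, e2]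
    apply mul_le_mul_of_nonneg_right _ (by positivity)
    linarith
  linarith

end Pool.Agent.RF
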