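import Pool.Agent.helper67.RG.Spec

set_option autoImplicit false

namespace Pool.Agent.RG.KRN

open Matrix Polynomial Pool.Agent.GO Pool.Agent.AR Pool.Agent.RG Kronecker

theorem KRN : KRN_stmt := by
  intro F _ d Φ
  classical
  set e : Fin 2 → Fin 2 → Matrix (Fin d) (Fin d) F := fun i j => Φ (Matrix.single i j 1) with he
  have emul : ∀ i j k l, e i j * e k l = if j = k then e i l else 0 := by
    intro i j k l
    simp only [he]
    rw [← map_mul]
    split_ifs with h
    · subst h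
      rw [Matrix.single_mul_single_same, mul_one]
    · have h2 : (Matrix.single i j (1 : F)) * (Matrix.single k l (1 : F)) = 0 := by
        ext a b
        simp only [Matrix.mul_apply, Matrix.single, Matrix.of_apply, Matrix.zero_apply]
        by_cases h₁ : i = a
        · simp [h₁, h, Finset.sum_eq_zero]
        · simp [h₁]
      rw [h2, map_zero]
  have esum : e 0 0 + e 1 1 = 1 := by
    simp only [he]
    rw [← map_add, ← map_one Φ]
    congr 1
    ext i j
    fin_cases i <;> fin_cases j <;> simp [Matrix.single, Matrix.one_apply]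
  have ePhi : ∀ Z : Matrix (Fin 2) (Fin 2) F, ∀ j,
      Φ Z * e j 0 = Z 0 j • e 0 0 + Z 1 j • e 1 0 := by
    intro Z j
    simp only [he]
    rw [← map_mul, ← map_smul, ← map_smul, ← map_add]
    congr 1
    ext a b
    fin_cases a <;> fin_cases b <;> fin_cases j <;> simp [Matrix.mul_apply, Matrix.single]
  set R : Submodule F (Fin d → F) := LinearMap.range (Matrix.mulVecLin (e 0 0)) with hRdef
  have hR : ∀ x ∈ R, e 0 0 *ᵥ x = x := by
    rintro x ⟨y, rfl⟩
    rw [Matrix.mulVecLin_apply, Matrix.mulVec_mulVec, emul, if_pos rfl]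
  have hR2 : ∀ x, e 0 0 *ᵥ x = x → x ∈ R := fun x hx => ⟨x, hx⟩
  have hmem : ∀ j v, e 0 j *ᵥ v ∈ R := by
    intro j v
    apply hR2
    rw [Matrix.mulVec_mulVec, emul, if_pos rfl]
  set w := Module.finBasis F R with hw
  set b := Module.finrank F R with hb
  let s : (Fin b → F) →ₗ[F] (Fin d → F) := R.subtype ∘ₗ w.equivFun.symm.toLinearMap
  have hsR : ∀ x, s x ∈ R := fun x => (w.equivFun.symm x).2
  have hsr : ∀ y : R, s (w.equivFun y) = (y : Fin d → F) := by
    intro y
    show ((w.equivFun.symm (w.equivFun y) : R) : Fin d → F) = y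
    rw [LinearEquiv.symm_apply_apply]
  have hrs : ∀ x (h : s x ∈ R), w.equivFun ⟨s x, h⟩ = x := by
    intro x h
    have : (⟨s x, h⟩ : R) = w.equivFun.symm x := Subtype.ext rfl
    rw [this, LinearEquiv.apply_symm_apply]
  let f : ((Fin 2 × Fin b) → F) →ₗ[F] (Fin d → F) :=
    Matrix.mulVecLin (e 0 0) ∘ₗ s ∘ₗ LinearMap.funLeft F F (fun k => ((0 : Fin 2), k)) +
      Matrix.mulVecLin (e 1 0) ∘ₗ s ∘ₗ LinearMap.funLeft F F (fun k => ((1 : Fin 2), k))
  have hf : ∀ c, f c = e 0 0 *ᵥ s (fun k => c (0, k)) + e 1 0 *ᵥ s (fun k => c (1, k)) :=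
    fun c => rfl
  let g : (Fin d → F) →ₗ[F] ((Fin 2 × Fin b) → F) :=
    LinearMap.pi (fun ik => LinearMap.proj ik.2 ∘ₗ w.equivFun.toLinearMap ∘ₗ
      LinearMap.codRestrict R (Matrix.mulVecLin (e 0 ik.1)) (fun v => hmem _ v))
  have hg : ∀ v i k, g v (i, k) = w.equivFun ⟨e 0 i *ᵥ v, hmem i v⟩ k := fun v i k => rfl
  have hfg : f ∘ₗ g = LinearMap.id := by
    apply LinearMap.ext
    intro v
    rw [LinearMap.comp_apply, hf, LinearMap.id_apply]
    have h0 : (fun k => g v (0, k)) = w.equivFun ⟨e 0 0 *ᵥ v, hmem 0 v⟩ := rfl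
    have h1 : (fun k => g v (1, k)) = w.equivFun ⟨e 0 1 *ᵥ v, hmem 1 v⟩ := rfl
    rw [h0, h1, hsr, hsr]
    show e 0 0 *ᵥ (e 0 0 *ᵥ v) + e 1 0 *ᵥ (e 0 1 *ᵥ v) = v
    rw [Matrix.mulVec_mulVec, Matrix.mulVec_mulVec, emul, emul, if_pos rfl, if_pos rfl,
      ← Matrix.add_mulVec, esum, Matrix.one_mulVec]
  have hgf : g ∘ₗ f = LinearMap.id := by
    apply LinearMap.ext
    intro c
    funext ⟨i, k⟩
    rw [LinearMap.comp_apply, LinearMap.id_apply, hg]
    have key : e 0 i *ᵥ f c = s (fun k => c (i, k)) := by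
      rw [hf, Matrix.mulVec_add, Matrix.mulVec_mulVec, Matrix.mulVec_mulVec, emul, emul]
      fin_cases i
      · simp [hR _ (hsR _)]
      · simp [hR _ (hsR _)]
    have : (⟨e 0 i *ᵥ f c, hmem i (f c)⟩ : R) = ⟨s (fun k => c (i, k)), hsR _⟩ :=
      Subtype.ext key
    rw [this, hrs]
  refine ⟨b, LinearMap.toMatrix' f, LinearMap.toMatrix' g, ?_, ?_, ?_, ?_⟩
  · rw [← LinearMap.toMatrix'_comp, hfg, LinearMap.toMatrix'_id]
  · rw [← LinearMap.toMatrix'_comp, hgf, LinearMap.toMatrix'_id]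
  · intro Z
    apply Matrix.toLin'.injective
    rw [Matrix.toLin'_mul, Matrix.toLin'_mul, Matrix.toLin'_toMatrix']
    apply LinearMap.ext
    intro c
    rw [LinearMap.comp_apply, LinearMap.comp_apply, Matrix.toLin'_apply, Matrix.toLin'_apply, hf, hf]
    have hk : ∀ i, (fun k => ((Z ⊗ₖ (1 : Matrix (Fin b) (Fin b) F)) *ᵥ c) (i, k)) =
        Z i 0 • (fun k => c (0, k)) + Z i 1 • (fun k => c (1, k)) := by
      intro i
      funext k
      simp only [Matrix.mulVec, dotProduct, Matrix.kroneckerMap_apply, Fintype.sum_prod_type,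
        Fin.sum_univ_two, Matrix.one_apply, Pi.add_apply, Pi.smul_apply, smul_eq_mul, mul_ite,
        mul_one, mul_zero, ite_mul, zero_mul, Finset.sum_ite_eq, Finset.mem_univ, if_true]
    rw [hk, hk, Matrix.mulVec_add, Matrix.mulVec_mulVec, Matrix.mulVec_mulVec, ePhi, ePhi]
    simp only [map_add, map_smul, Matrix.add_mulVec, Matrix.smul_mulVec, Matrix.mulVec_add,
      Matrix.mulVec_smul]
    abel
  · intro B hB
    have hBR : ∀ x ∈ R, B *ᵥ x ∈ R := by
      intro x hx
      apply hR2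
      rw [Matrix.mulVec_mulVec, ← hB, ← Matrix.mulVec_mulVec]
      congr 1
      exact hR x hx
    let β : (Fin b → F) →ₗ[F] (Fin b → F) :=
      w.equivFun.toLinearMap ∘ₗ (LinearMap.restrict (Matrix.mulVecLin B) hBR) ∘ₗ
        w.equivFun.symm.toLinearMap
    have hβ : ∀ x, s (β x) = B *ᵥ s x := by
      intro x
      show s (w.equivFun _) = _
      rw [hsr]
      rfl
    refine ⟨LinearMap.toMatrix' β, ?_⟩
    apply Matrix.toLin'.injective
    rw [Matrix.toLin'_mul, Matrix.toLin'_mul, Matrix.toLin'_toMatrix']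
    apply LinearMap.ext
    intro c
    rw [LinearMap.comp_apply, LinearMap.comp_apply, Matrix.toLin'_apply, Matrix.toLin'_apply, hf, hf]
    have hk : ∀ i, (fun k => (((1 : Matrix (Fin 2) (Fin 2) F) ⊗ₖ LinearMap.toMatrix' β) *ᵥ c) (i, k))
        = β (fun k => c (i, k)) := by
      intro i
      have e1 : β (fun k => c (i, k)) = LinearMap.toMatrix' β *ᵥ (fun k => c (i, k)) := by
        rw [← Matrix.toLin'_apply, Matrix.toLin'_toMatrix']
      rw [e1]
      funext k
      fin_cases i <;>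
      simp [Matrix.mulVec, dotProduct, Matrix.kroneckerMap_apply, Fintype.sum_prod_type,
        Fin.sum_univ_two, Matrix.one_apply]
    rw [hk, hk, hβ, hβ, Matrix.mulVec_add, Matrix.mulVec_mulVec, Matrix.mulVec_mulVec,
      Matrix.mulVec_mulVec, Matrix.mulVec_mulVec]
    rw [hB, hB]

end Pool.Agent.RG.KRN
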